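import Mathlib

/-!
# CS (MP_931ca8_lc): a rayless graph on every `α < ω₂` without independent sets of type
`ω₁ ^ (ω + 2)`, from CH. Definitions.
-/

set_option autoImplicit false

namespace Pool.Agent.CS

/-- the candidates: a bound `g` and a strategy (`k` = level, `N` = the chain built so far) -/
abbrev Cand (V Ω : Type) := Ω × (ℕ → Finset V → Option V)

/-- the data of the construction: `t` times, `m` levels, `L` stages, `c` enumeration of the
candidates, `e z` enumeration of the elements below `z` -/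
structure Sys (V Ω : Type) [LinearOrder Ω] where
  t : V → Ω
  m : V → ℕ
  L : V → Finset Ω
  c : Ω → Cand V Ω
  e : Ω → Ω → ℕ

structure Sys.Ok {V Ω : Type} [LinearOrder Ω] (s : Sys V Ω) : Prop where
  Lt : ∀ x, ∀ z ∈ s.L x, z ≤ s.t x
  Lm : ∀ x, (s.L x).card ≤ s.m x
  ei : ∀ z, Set.InjOn (s.e z) (Set.Iio z)
  cnt : ∀ z : Ω, {x | s.t x < z}.Countable
  guess : ∀ (g : Ω) (f : ℕ → Finset V → Option V), ∃ ξ, (s.c ξ).1 = g ∧
    ∀ k N, (∀ w ∈ N, s.t w < g) → (∀ y, f k N = some y → s.t y < g) → (s.c ξ).2 k N = f k N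

/-- the out-neighbourhoods form a forest of finite height on every level: `rk` ranks -/
structure Forest {V Ω : Type} [LinearOrder Ω] (t : V → Ω) (m : V → ℕ) (out : V → Finset V)
    (rk : V → ℕ) : Prop where
  lt : ∀ x, ∀ y ∈ out x, t y < t x
  lev : ∀ x, ∀ y ∈ out x, m y = m x
  rk : ∀ x, ∀ y ∈ out x, rk y < rk x
  trans : ∀ x, ∀ y ∈ out x, out y ⊆ out x
  chain : ∀ x, ∀ y ∈ out x, ∀ y' ∈ out x, y = y' ∨ y ∈ out y' ∨ y' ∈ out y

section Run

variable {V Ω : Type} [DecidableEq V] [LinearOrder Ω]

/-- the proposal of the candidate `c` at the chain `N`, for the vertex `x`; `a y` = (out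
neighbourhood, rank) of `y` -/
def prop (t : V → Ω) (m : V → ℕ) (a : V → Finset V × ℕ) (x : V) (c : Cand V Ω)
    (N : Finset V) : Option V :=
  match c.2 (m x) N with
  | none => none
  | some y => if t y < t x ∧ m y = m x ∧ N ⊆ (a y).1 ∧ ∀ w ∈ insert y N, t w < c.1 then some y
      else none

/-- the ranks of all possible proposals -/
def PR (t : V → Ω) (m : V → ℕ) (a : V → Finset V × ℕ) (x : V) :
    List (Cand V Ω) → Finset V → Finset ℕ
  | [], _ => ∅
  | c :: l, N => match prop t m a x c N with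
    | none => PR t m a x l N
    | some y => insert (a y).2 (PR t m a x l N ∪ PR t m a x l (insert y (a y).1))

/-- the chain built from the list of candidates, `u` = rank of `x` -/
def run (t : V → Ω) (m : V → ℕ) (a : V → Finset V × ℕ) (x : V) (u : ℕ) :
    List (Cand V Ω) → Finset V → Finset V
  | [], N => N
  | c :: l, N => match prop t m a x c N with
    | none => run t m a x u l N
    | some y => if (a y).2 < u then run t m a x u l (insert y (a y).1) else run t m a x u l N

end Run

section Ord

/-- `S` has order type at most `β` -/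
def TL {V : Type} [LinearOrder V] (S : Set V) (β : Ordinal.{0}) : Prop :=
  ∃ f : V → Ordinal.{0}, StrictMonoOn f S ∧ ∀ x ∈ S, f x < β

/-- the records: the vertices `v ≥ x` below all `v' ≥ x` with a smaller index -/
def Rec {V Ω : Type} [LinearOrder V] [LinearOrder Ω] (τ : V → Ω) (x : V) : Set V :=
  {v | x ≤ v ∧ ∀ v', x ≤ v' → τ v' < τ v → v < v'}

/-- `w` is the vertex of smallest index in `[x, v)` -/
def Arg {V Ω : Type} [LinearOrder V] [LinearOrder Ω] (τ : V → Ω) (v : WithTop V) (x w : V) :
    Prop :=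
  x ≤ w ∧ (w : WithTop V) < v ∧ ∀ w', x ≤ w' → (w' : WithTop V) < v → τ w ≤ τ w'

end Ord

end Pool.Agent.CS
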