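import Mathlib
import Pool.Agent.Lib_helper80.CS.F.C15

/-! CS: the proved form of the statements (blocks C1 - C15). -/
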