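import Mathlib
import Pool.Agent.Lib_helper68.OG16

/-!
# CS: from `α < ω₂` to all limit ordinals with small parts at the levels above `ω₁`
-/

set_option autoImplicit false

namespace Pool.Agent.CS

open Pool.Agent.H68.OG Cardinal Ordinal

theorem level_iff (β : Ordinal.{0}) (hβ : 0 < β)
    (hbase : ∀ ε : Ordinal.{0}, ε < (aleph 2).ord → ω ∣ ε → (PI ε ↔ ε < β))
    (α : Ordinal.{0}) : ω ∣ α →
    (∀ κ : Cardinal.{0}, aleph 1 < κ → ∃ ν : Cardinal.{0}, ℵ₀ ≤ ν ∧ ν < κ ∧
      α % (Order.succ κ).ord < κ.ord ^ (ν.ord + 2)) → (PI α ↔ α % (aleph 2).ord < β) := by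
  have h12 : Order.succ (aleph 1) = (aleph 2 : Cardinal.{0}) := by
    rw [Cardinal.succ_aleph]
    congr 1
    norm_num
  have hω1 : ℵ₀ < (aleph 1 : Cardinal.{0}) := Cardinal.aleph0_lt_aleph_one
  induction α using WellFoundedLT.induction with
  | ind α IH =>
    intro hdvd hlev
    by_cases hc : α.card ≤ aleph 1
    · have hα : α < (aleph 2).ord := by
        rw [Cardinal.lt_ord, ← h12]
        exact Order.lt_succ_iff.2 hc
      rw [Ordinal.mod_eq_of_lt hα]
      exact hbase α hα hdvd
    · rw [not_le] at hc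
      set κ := α.card with hκ
      have hc0 : ℵ₀ < κ := hω1.trans hc
      obtain ⟨ν, hν, hνκ, hlt⟩ := hlev κ hc
      have hαlt : α < (Order.succ κ).ord := by
        rw [Cardinal.lt_ord]
        exact Order.lt_succ κ
      rw [Ordinal.mod_eq_of_lt hαlt] at hlt
      have hκα : κ.ord ≤ α := Cardinal.ord_le.2 le_rfl
      have hκ0 : κ.ord ≠ 0 := (zero_lt_one.trans (one_lt_ord' hc0.le)).ne'
      have hdm := Ordinal.div_add_mod α κ.ord
      have hεκ : α % κ.ord < κ.ord := Ordinal.mod_lt α hκ0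
      have hδlt : κ.ord * (α / κ.ord) < κ.ord ^ (ν.ord + 2) := by
        refine lt_of_le_of_lt ?_ hlt
        conv_rhs => rw [← hdm]
        exact le_self_add
      have hωκ : ω ∣ κ.ord := by
        have := ord_dvd_ord le_rfl hc0.le
        rwa [Cardinal.ord_aleph0] at this
      have hωε : ω ∣ α % κ.ord := by
        rw [← hdm] at hdvd
        exact (Ordinal.dvd_add_iff (Dvd.dvd.mul_right hωκ _)).1 hdvd
      have h2κ : (aleph 2).ord ∣ κ.ord := by
        refine ord_dvd_ord (Cardinal.aleph0_le_aleph 2) ?_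
        rw [← h12]
        exact Order.succ_le_of_lt hc
      have hmod : α % (aleph 2).ord = (α % κ.ord) % (aleph 2).ord := by
        obtain ⟨c, hc'⟩ := h2κ
        conv_lhs => rw [← hdm]
        rw [hc', mul_assoc, Ordinal.mul_add_mod_self]
      rcases eq_or_ne (α % κ.ord) 0 with h0 | h0
      · rw [hmod, h0, Ordinal.zero_mod]
        rw [h0, add_zero] at hdm
        refine ⟨fun _ => hβ, fun _ => ?_⟩
        rw [← hdm]
        exact pi_mul hν hνκ _ hδlt
      · have hl : Order.IsSuccLimit (α % κ.ord) :=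
          Ordinal.isSuccLimit_iff_omega0_dvd.2 ⟨h0, hωε⟩
        rw [hmod]
        have h6 : PI α ↔ PI (α % κ.ord) := by
          conv_lhs => rw [← hdm]
          exact pi_iff' hν hνκ _ hδlt _ hεκ hl
        rw [h6]
        refine IH _ (hεκ.trans_le hκα) hωε ?_
        intro κ' hκ'
        have hκ'0 : ℵ₀ < κ' := hω1.trans hκ'
        by_cases hle : κ ≤ κ'
        · refine ⟨ℵ₀, le_rfl, hκ'0, ?_⟩
          refine (Ordinal.mod_le _ _).trans_lt (hεκ.trans_le ?_)
          refine (Cardinal.ord_le_ord.2 hle).trans ?_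
          calc κ'.ord = κ'.ord ^ (1 : Ordinal.{0}) := (Ordinal.opow_one _).symm
            _ ≤ κ'.ord ^ ((ℵ₀ : Cardinal.{0}).ord + 2) := by
              refine Ordinal.opow_le_opow_right (zero_lt_one.trans (one_lt_ord' hκ'0.le)) ?_
              refine (one_lt_ord' le_rfl).le.trans ?_
              exact le_self_add
        · rw [not_le] at hle
          obtain ⟨ν', hν', hν'κ, hlt'⟩ := hlev κ' hκ'
          refine ⟨ν', hν', hν'κ, ?_⟩
          obtain ⟨c, hc'⟩ := ord_dvd_ord (μ := Order.succ κ') (κ := κ)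
            (hκ'0.le.trans (Order.le_succ κ')) (Order.succ_le_of_lt hle)
          have h5 : α % (Order.succ κ').ord = (α % κ.ord) % (Order.succ κ').ord := by
            conv_lhs => rw [← hdm]
            rw [hc', mul_assoc, Ordinal.mul_add_mod_self]
          rw [← h5]
          exact hlt'

/-- all limit ordinals below `ω₂ ^ (ω₁ + 2)` satisfy the condition on the levels -/
theorem level_cond (α : Ordinal.{0})
    (hα : α < (aleph 2).ord ^ ((aleph 1).ord + 2)) (κ : Cardinal.{0}) (hκ : aleph 1 < κ) :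
    ∃ ν : Cardinal.{0}, ℵ₀ ≤ ν ∧ ν < κ ∧ α % (Order.succ κ).ord < κ.ord ^ (ν.ord + 2) := by
  have h12 : Order.succ (aleph 1) = (aleph 2 : Cardinal.{0}) := by
    rw [Cardinal.succ_aleph]
    congr 1
    norm_num
  refine ⟨aleph 1, Cardinal.aleph0_le_aleph 1, hκ, ?_⟩
  refine (Ordinal.mod_le _ _).trans_lt (hα.trans_le ?_)
  refine Ordinal.opow_le_opow_left _ (Cardinal.ord_le_ord.2 ?_)
  rw [← h12]
  exact Order.succ_le_of_lt hκ

end Pool.Agent.CS
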